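import Pool.Agent.Helper95.PW.Stmts
import Pool.Agent.Helper81.PW.Com

/-! # Row TLO (MP_56acfd_mp): the kinetic energy of a ground state is at least `c n ^ (7/3)` -/

set_option autoImplicit false

namespace Pool.Agent.Helper95.PW

open MeasureTheory Filter

theorem TLO28.kinlow {n : ℕ} {C c a k : ℝ} (hn : 1 ≤ n) (hC : 0 < C) (hc : 0 < c) (hk : 0 ≤ k)
    (h1 : c * (n : ℝ) ^ (7 / 3 : ℝ) / 2 ≤ n * a)
    (h2 : a ≤ C * (n : ℝ) ^ (1 / 6 : ℝ) * Real.sqrt k) :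
    (c / (2 * C)) ^ 2 * (n : ℝ) ^ (7 / 3 : ℝ) ≤ k := by
  have hn0 : (0 : ℝ) < n := by exact_mod_cast hn
  have e1 : (n : ℝ) ^ (7 / 3 : ℝ) = n * (n : ℝ) ^ (1 / 6 : ℝ) * (n : ℝ) ^ (7 / 6 : ℝ) := by
    nth_rewrite 2 [← Real.rpow_one (n : ℝ)]
    rw [← Real.rpow_add hn0, ← Real.rpow_add hn0]
    norm_num
  have e2 : (n : ℝ) ^ (7 / 3 : ℝ) = ((n : ℝ) ^ (7 / 6 : ℝ)) ^ 2 := by
    rw [← Real.rpow_natCast, ← Real.rpow_mul hn0.le]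
    norm_num
  have p1 : 0 < (n : ℝ) ^ (1 / 6 : ℝ) := Real.rpow_pos_of_pos hn0 _
  have p2 : 0 < (n : ℝ) ^ (7 / 6 : ℝ) := Real.rpow_pos_of_pos hn0 _
  have h3 : n * a ≤ n * (C * (n : ℝ) ^ (1 / 6 : ℝ) * Real.sqrt k) :=
    mul_le_mul_of_nonneg_left h2 hn0.le
  have h4 : c / (2 * C) * (n : ℝ) ^ (7 / 6 : ℝ) ≤ Real.sqrt k := by
    rw [e1] at h1
    have h5 : (n * (n : ℝ) ^ (1 / 6 : ℝ)) * (c / 2 * (n : ℝ) ^ (7 / 6 : ℝ)) ≤
        (n * (n : ℝ) ^ (1 / 6 : ℝ)) * (C * Real.sqrt k) := by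
      calc _ = c * (n * (n : ℝ) ^ (1 / 6 : ℝ) * (n : ℝ) ^ (7 / 6 : ℝ)) / 2 := by ring
        _ ≤ n * a := h1
        _ ≤ _ := h3
        _ = _ := by ring
    have h6 := le_of_mul_le_mul_left h5 (mul_pos hn0 p1)
    have h7 : c / (2 * C) * (n : ℝ) ^ (7 / 6 : ℝ) = (c / 2 * (n : ℝ) ^ (7 / 6 : ℝ)) / C := by
      field_simp
    rw [h7, div_le_iff₀ hC]
    linarith
  calc (c / (2 * C)) ^ 2 * (n : ℝ) ^ (7 / 3 : ℝ)
      = (c / (2 * C) * (n : ℝ) ^ (7 / 6 : ℝ)) ^ 2 := by rw [e2]; ring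
    _ ≤ Real.sqrt k ^ 2 := by
        apply pow_le_pow_left₀ _ h4
        positivity
    _ = k := Real.sq_sqrt hk

theorem st_TLO (hTRI : ST_TRI) (hATT : ST_ATT) (hAPX : ST_APX) (hLMT : ST_LMT) (hQH : ST_QH)
    (hINT : ST_INT) : ST_TLO := by
  obtain ⟨c, n0, hc, hT⟩ := hTRI
  obtain ⟨C, hC, hA⟩ := hATT
  obtain ⟨N, hN⟩ := exists_nat_gt (4 / c)
  refine ⟨(c / (2 * C)) ^ 2, max n0 (max 1 N), by positivity, ?_⟩
  intro n E φ G hn hG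
  have hn0 : n0 ≤ n := le_trans (le_max_left _ _) hn
  have hn1 : 1 ≤ n := le_trans (le_trans (le_max_left _ _) (le_max_right _ _)) hn
  have hnN : N ≤ n := le_trans (le_trans (le_max_right _ _) (le_max_right _ _)) hn
  have hnr : (1 : ℝ) ≤ n := by exact_mod_cast hn1
  have hX : 4 ≤ c * (n : ℝ) ^ (7 / 3 : ℝ) := by
    have h1 : (n : ℝ) ≤ (n : ℝ) ^ (7 / 3 : ℝ) := by
      nth_rewrite 1 [← Real.rpow_one (n : ℝ)]
      exact Real.rpow_le_rpow_of_exponent_le hnr (by norm_num)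
    have h2 : 4 / c ≤ n := hN.le.trans (by exact_mod_cast hnN)
    rw [div_le_iff₀ hc] at h2
    nlinarith
  obtain ⟨ψ, hψ1, hψ2, hψ3, hψ4⟩ := hT n hn0
  have hE : E ≤ -(c * (n : ℝ) ^ (7 / 3 : ℝ)) := by
    have h1 := (hG.low ψ hψ1 hψ2).trans hψ4
    exact le_of_mul_le_mul_right h1 hψ3
  refine ⟨by linarith, ?_⟩
  obtain ⟨u, hu⟩ := hAPX n E φ G hG
  obtain ⟨l1, l2, -⟩ := hLMT n E φ G u hG hu
  obtain ⟨hS, -, -, -, hR⟩ := hu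
  refine ge_of_tendsto l2 ?_
  have ev1 : ∀ᶠ j in atTop, 3 / 4 < sq (u j) := l1.eventually (lt_mem_nhds (by norm_num))
  have ev2 : ∀ᶠ j in atTop, sq (u j) < 2 := l1.eventually (gt_mem_nhds (by norm_num))
  have ev3 : ∀ᶠ j in atTop, res n E (u j) < 1 / 2 := hR.eventually (gt_mem_nhds (by norm_num))
  filter_upwards [ev1, ev2, ev3] with j a1 a2 a3
  have hq := com_Q_le hQH hINT n E (u j) (hS j).1
  have hk := com_kin_nonneg (u j)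
  have hp := com_pair_nonneg (u j)
  have hat := hA n (u j) hn1 (hS j).1 (hS j).2 a2.le
  have hEs : E * sq (u j) ≤ -(c * (n : ℝ) ^ (7 / 3 : ℝ)) * (3 / 4) := by
    nlinarith
  have hQ1 : Q n (u j) ≤ -(c * (n : ℝ) ^ (7 / 3 : ℝ)) / 2 := by linarith
  refine TLO28.kinlow hn1 hC hc hk ?_ hat
  unfold Q at hQ1
  linarith

end Pool.Agent.Helper95.PW
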